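import Pool.Agent.Helper3_PPZ.Stmts

/-!
# Squad PPZ, modules RTA and HXX
-/

set_option autoImplicit false

universe u

namespace Pool.Agent.PPZ.H29

open MvPolynomial PGH PPX

section dlog

variable {E : Type*} [Field E] (D : Derivation ℤ E E)

/-- the logarithmic derivative of a product -/
theorem dl_mul {u v : E} (hu : u ≠ 0) (hv : v ≠ 0) : D (u * v) / (u * v) = D u / u + D v / v := by
  rw [D.leibniz, smul_eq_mul, smul_eq_mul]
  field_simp
  ring

/-- the logarithmic derivative of a quotient -/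
theorem dl_div {u v : E} (hu : u ≠ 0) (hv : v ≠ 0) : D (u / v) / (u / v) = D u / u - D v / v := by
  have h1 := dl_mul D (div_ne_zero hu hv) hv
  rw [div_mul_cancel₀ u hv] at h1
  rw [h1]
  ring

/-- the logarithmic derivative of a square -/
theorem dl_sq {u : E} (hu : u ≠ 0) : D (u ^ 2) / u ^ 2 = 2 * (D u / u) := by
  have h1 := dl_mul D hu hu
  rw [← pow_two] at h1
  rw [h1]
  ring

/-- the logarithmic derivative of a finite product -/
theorem dl_prod {ι : Type*} (s : Finset ι) (y : ι → E) (hy : ∀ i ∈ s, y i ≠ 0) :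
    D (∏ i ∈ s, y i) / ∏ i ∈ s, y i = ∑ i ∈ s, D (y i) / y i := by
  classical
  induction s using Finset.induction_on with
  | empty =>
    rw [Finset.prod_empty, Finset.sum_empty, D.map_one_eq_zero, zero_div]
  | insert i s hi ih =>
    have h1 : ∀ j ∈ s, y j ≠ 0 := fun j hj => hy j (Finset.mem_insert_of_mem hj)
    rw [Finset.prod_insert hi, Finset.sum_insert hi,
      dl_mul D (hy i (Finset.mem_insert_self i s)) (Finset.prod_ne_zero_iff.2 h1), ih h1]

end dlog

section curve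

variable {k : Type u} [Field k] {N₁ N₂ : ℕ} {a : Fin N₁ → k} {b : Fin N₂ → k} (C : BC a b)

theorem D_const (c : k) : C.D (algebraMap k C.E c) = 0 := (C.ker _).2 ⟨c, rfl⟩

theorem x_ne (c : k) : algebraMap k C.E c ≠ C.x := by
  intro h
  apply C.dx
  rw [← h]
  exact D_const C c

theorem z_ne (c : k) : algebraMap k C.E c ≠ C.z := by
  intro h
  apply C.dz
  rw [← h]
  exact D_const C c

theorem D_x_sub (c : k) : C.D (C.x - algebraMap k C.E c) = C.D C.x := by
  rw [map_sub, D_const, sub_zero]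

theorem D_z_sub (c : k) : C.D (C.z - algebraMap k C.E c) = C.D C.z := by
  rw [map_sub, D_const, sub_zero]

theorem x_sub_ne (c : k) : C.x - algebraMap k C.E c ≠ 0 := sub_ne_zero.2 (x_ne C c).symm

theorem z_sub_ne (c : k) : C.z - algebraMap k C.E c ≠ 0 := sub_ne_zero.2 (z_ne C c).symm

theorem th_ne : C.th ≠ 0 := div_ne_zero C.dx C.dz

theorem f_ne : C.f ≠ 0 := Finset.prod_ne_zero_iff.2 fun i _ => x_sub_ne C (a i)

theorem g_ne : C.g ≠ 0 := Finset.prod_ne_zero_iff.2 fun j _ => z_sub_ne C (b j)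

theorem ph_ne : C.ph ≠ 0 :=
  div_ne_zero (mul_ne_zero (th_ne C) (pow_ne_zero 2 (g_ne C))) (pow_ne_zero 2 (f_ne C))

/-- `D φ / φ = Λ D z` -/
theorem dl_ph : C.D C.ph / C.ph = C.la * C.D C.z := by
  have hf : C.D C.f / C.f = ∑ i, C.D C.x / (C.x - algebraMap k C.E (a i)) := by
    unfold BC.f
    rw [dl_prod C.D Finset.univ _ fun i _ => x_sub_ne C (a i)]
    exact Finset.sum_congr rfl fun i _ => by rw [D_x_sub]
  have hg : C.D C.g / C.g = ∑ j, C.D C.z / (C.z - algebraMap k C.E (b j)) := by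
    unfold BC.g
    rw [dl_prod C.D Finset.univ _ fun j _ => z_sub_ne C (b j)]
    exact Finset.sum_congr rfl fun j _ => by rw [D_z_sub]
  have h1 : C.D C.ph / C.ph = C.D C.th / C.th + 2 * (C.D C.g / C.g) - 2 * (C.D C.f / C.f) := by
    unfold BC.ph
    rw [dl_div C.D (mul_ne_zero (th_ne C) (pow_ne_zero 2 (g_ne C))) (pow_ne_zero 2 (f_ne C)),
      dl_mul C.D (th_ne C) (pow_ne_zero 2 (g_ne C)), dl_sq C.D (g_ne C), dl_sq C.D (f_ne C)]
  have h2 : C.la * C.D C.z = C.D C.th / C.th - 2 * ((∑ i, C.D C.x / (C.x - algebraMap k C.E (a i))) -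
      ∑ j, C.D C.z / (C.z - algebraMap k C.E (b j))) := by
    unfold BC.la PPX.la
    rw [div_mul_cancel₀ _ C.dz]
    rfl
  rw [h1, h2, hf, hg]
  ring

/-- sums over a finite set of elements as sums over `Fin` -/
theorem sum_fin {M : Type*} [AddCommMonoid M] (s : Finset k) (φ : k → M) :
    ∑ i : Fin s.card, φ (s.equivFin.symm i) = ∑ c ∈ s, φ c := by
  rw [Equiv.sum_comp s.equivFin.symm (fun c : s => φ c)]
  exact Finset.sum_coe_sort s φ

theorem rta_one [IsAlgClosed k] [CharZero k] (hL : LreStmt.{u}) (s₁ s₂ : Finset k) (r₁ r₂ : k → k)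
    (α : C.E) (h : C.D C.ph / C.ph + (∑ c ∈ s₁, algebraMap k C.E (r₁ c) *
      (C.D C.x / (C.x - algebraMap k C.E c))) - (∑ c ∈ s₂, algebraMap k C.E (r₂ c) *
      (C.D C.z / (C.z - algebraMap k C.E c))) = C.D α) (P : Place k C.E) :
    (P.ord C.ph : k) = ∑ c ∈ s₂, r₂ c * P.ord (C.z - algebraMap k C.E c) -
      ∑ c ∈ s₁, r₁ c * P.ord (C.x - algebraMap k C.E c) := by
  classical
  let y : Option (Fin s₁.card ⊕ Fin s₂.card) → C.E := fun o =>
    match o with
    | none => C.ph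
    | some (Sum.inl i) => C.x - algebraMap k C.E (s₁.equivFin.symm i)
    | some (Sum.inr j) => C.z - algebraMap k C.E (s₂.equivFin.symm j)
  let m : Option (Fin s₁.card ⊕ Fin s₂.card) → k := fun o =>
    match o with
    | none => 1
    | some (Sum.inl i) => r₁ (s₁.equivFin.symm i)
    | some (Sum.inr j) => - r₂ (s₂.equivFin.symm j)
  have hy : ∀ o ∈ (Finset.univ : Finset (Option (Fin s₁.card ⊕ Fin s₂.card))), y o ≠ 0 := by
    intro o _
    rcases o with _ | i | j
    · exact ph_ne C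
    · exact x_sub_ne C _
    · exact z_sub_ne C _
  have hs : ∑ o ∈ (Finset.univ : Finset (Option (Fin s₁.card ⊕ Fin s₂.card))),
      algebraMap k C.E (m o) * (C.D (y o) / y o) = C.D α := by
    rw [← h, Fintype.sum_option, Fintype.sum_sum_type]
    have e1 : ∑ i : Fin s₁.card, algebraMap k C.E (m (some (Sum.inl i))) *
        (C.D (y (some (Sum.inl i))) / y (some (Sum.inl i))) =
        ∑ c ∈ s₁, algebraMap k C.E (r₁ c) * (C.D C.x / (C.x - algebraMap k C.E c)) := by
      rw [← sum_fin s₁ (fun c => algebraMap k C.E (r₁ c) *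
        (C.D C.x / (C.x - algebraMap k C.E c)))]
      refine Finset.sum_congr rfl fun i _ => ?_
      show algebraMap k C.E (r₁ (s₁.equivFin.symm i)) *
        (C.D (C.x - algebraMap k C.E (s₁.equivFin.symm i)) /
          (C.x - algebraMap k C.E (s₁.equivFin.symm i))) = _
      rw [D_x_sub]
    have e2 : ∑ j : Fin s₂.card, algebraMap k C.E (m (some (Sum.inr j))) *
        (C.D (y (some (Sum.inr j))) / y (some (Sum.inr j))) =
        - ∑ c ∈ s₂, algebraMap k C.E (r₂ c) * (C.D C.z / (C.z - algebraMap k C.E c)) := by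
      rw [← sum_fin s₂ (fun c => algebraMap k C.E (r₂ c) *
        (C.D C.z / (C.z - algebraMap k C.E c))), ← Finset.sum_neg_distrib]
      refine Finset.sum_congr rfl fun j _ => ?_
      show algebraMap k C.E (- r₂ (s₂.equivFin.symm j)) *
        (C.D (C.z - algebraMap k C.E (s₂.equivFin.symm j)) /
          (C.z - algebraMap k C.E (s₂.equivFin.symm j))) = _
      rw [D_z_sub, map_neg, neg_mul]
    rw [e1, e2]
    show algebraMap k C.E 1 * (C.D C.ph / C.ph) + _ = _
    rw [map_one, one_mul]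
    ring
  have h1 := hL C.D C.ker Finset.univ y m α hy hs P
  rw [Fintype.sum_option, Fintype.sum_sum_type] at h1
  have e3 : ∑ i : Fin s₁.card, m (some (Sum.inl i)) * (P.ord (y (some (Sum.inl i))) : k) =
      ∑ c ∈ s₁, r₁ c * P.ord (C.x - algebraMap k C.E c) :=
    sum_fin s₁ (fun c => r₁ c * (P.ord (C.x - algebraMap k C.E c) : k))
  have e4 : ∑ j : Fin s₂.card, m (some (Sum.inr j)) * (P.ord (y (some (Sum.inr j))) : k) =
      - ∑ c ∈ s₂, r₂ c * P.ord (C.z - algebraMap k C.E c) := by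
    rw [← sum_fin s₂ (fun c => r₂ c * (P.ord (C.z - algebraMap k C.E c) : k)),
      ← Finset.sum_neg_distrib]
    refine Finset.sum_congr rfl fun j _ => ?_
    show - r₂ (s₂.equivFin.symm j) * _ = _
    rw [neg_mul]
  rw [e3, e4] at h1
  have h2 : (1 : k) * (P.ord C.ph : k) + (∑ c ∈ s₁, r₁ c * P.ord (C.x - algebraMap k C.E c) +
      - ∑ c ∈ s₂, r₂ c * P.ord (C.z - algebraMap k C.E c)) = 0 := h1
  linear_combination h2

end curve

/-- RTA: the orders of `φ` are given by residues -/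
theorem rta (_hN : NodStmt.{u}) (hT : TsxStmt.{u}) (hP : PfdStmt.{u}) (hL : LreStmt.{u}) :
    RtaStmt.{u} := by
  intro q hq
  obtain ⟨N₀, hN₀⟩ := hT q hq
  refine ⟨N₀, ?_⟩
  intro k _ _ _ N₁ N₂ a b h1 h2 ha hb T
  obtain ⟨A, B, A', B', s₁, s₂, hB, hB', hs₁, hs₂, hev⟩ := hN₀ a b h1 h2 ha hb T
  obtain ⟨r₁, U, V, hUV⟩ := hP A B hB s₁ hs₁
  obtain ⟨r₂, U', V', hUV'⟩ := hP A' B' hB' s₂ hs₂
  refine ⟨s₁, s₂, r₁, r₂, ?_⟩
  filter_upwards [hev] with i hi
  obtain ⟨hla, hsm⟩ := hi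
  refine ⟨hsm, ?_⟩
  set C := T.C i with hC
  have hx := hUV C.D (fun c => D_const C c) C.x (x_ne C)
  have hz := hUV' C.D (fun c => D_const C c) C.z (z_ne C)
  refine rta_one C hL s₁ s₂ r₁ r₂
    (Polynomial.aeval C.z U' / Polynomial.aeval C.z V' -
      Polynomial.aeval C.x U / Polynomial.aeval C.x V) ?_
  have hth : C.th * C.D C.z = C.D C.x := div_mul_cancel₀ _ C.dz
  rw [map_sub, dl_ph, hla]
  linear_combination hz - hx - (Polynomial.aeval C.x A / Polynomial.aeval C.x B) * hth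

/-- HXX: the height inequality outside a plane curve -/
theorem hxx (hF : FamStmt.{u}) (hN : NofStmt.{u}) : HxxStmt.{u} := by
  obtain ⟨N₀, h20, hN₀⟩ := hN
  refine ⟨N₀, h20, ?_⟩
  intro k _ _ _ N₁ N₂ a b h1 h2 ha hb
  by_contra hcon
  push Not at hcon
  obtain ⟨T, -⟩ := hF a b Set.univ (by
    intro F hF0
    have h3 := hcon F hF0
    unfold ExcA at h3
    push Not at h3
    obtain ⟨E, i1, i2, i3, i4, D, cp, sc, bd, hker, hbp, x, z, hdx, hdz, hpat, hne, hlt⟩ := h3
    exact ⟨{ E := E, field := i1, algebra := i2, charZero := i3, ff := i4, D := D, cp := cp,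
             sc := sc, bd := bd, x := x, z := z, ker := hker, bp := hbp, dx := hdx, dz := hdz,
             pat := hpat, bad := hlt }, Set.mem_univ _, hne⟩)
  exact hN₀ a b h1 h2 ha hb T

end Pool.Agent.PPZ.H29
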